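import Pool.Agent.Helper84.HD.St
import Pool.Agent.Helper28.PC.Mert

/-!
# Project HD, module TU (upper tail of `Ω`)
-/

set_option autoImplicit false

open Finset Filter Topology Pool.Agent.Helper84.HD
open Pool.Agent.Helper4.DE (C Lg LogDens IsMultClosed t D Z)

namespace Pool.Agent.Helper36.HD

/-- number of prime factors from `s`, with multiplicity -/
def es (s : Finset ℕ) (n : ℕ) : ℕ := ∑ p ∈ s, n.factorization p

theorem sum_mult (p N : ℕ) (hp : 0 < p) (f : ℕ → ℝ) (hf : ∀ n, ¬ p ∣ n → f n = 0) :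
    ∑ n ∈ Ioc 0 N, f n = ∑ m ∈ Ioc 0 (N / p), f (p * m) := by
  have h : ∑ m ∈ Ioc 0 (N / p), f (p * m) = ∑ n ∈ (Ioc 0 N).filter (p ∣ ·), f n := by
    refine Finset.sum_nbij' (fun m => p * m) (fun n => n / p) ?_ ?_ ?_ ?_ ?_
    · intro m hm
      simp only [mem_Ioc, mem_filter] at *
      refine ⟨⟨Nat.mul_pos hp hm.1, ?_⟩, dvd_mul_right _ _⟩
      calc p * m ≤ p * (N / p) := Nat.mul_le_mul_left _ hm.2
        _ ≤ N := Nat.mul_div_le _ _
    · intro n hn
      simp only [mem_Ioc, mem_filter] at *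
      exact ⟨Nat.div_pos (Nat.le_of_dvd hn.1.1 hn.2) hp, Nat.div_le_div_right hn.1.2⟩
    · intro m _
      exact Nat.mul_div_cancel_left _ hp
    · intro n hn
      simp only [mem_filter] at hn
      exact Nat.mul_div_cancel' hn.2
    · intro m _
      rfl
  rw [h, Finset.sum_filter]
  refine Finset.sum_congr rfl (fun n _ => ?_)
  split_ifs with h1
  · rfl
  · exact hf n h1

theorem es_mul (s : Finset ℕ) (p m : ℕ) (hp : p.Prime) (hps : p ∉ s) (hm : m ≠ 0) :
    es s (p * m) = es s m := by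
  unfold es
  refine Finset.sum_congr rfl (fun q hq => ?_)
  rw [Nat.factorization_mul hp.ne_zero hm, Finsupp.add_apply, hp.factorization,
    Finsupp.single_eq_of_ne (by rintro rfl; exact hps hq), zero_add]

theorem F_le (u : ℝ) (hu : 0 ≤ u) (hu2 : u ≤ 1 / 2) (s : Finset ℕ) :
    (∀ p ∈ s, p.Prime) → ∀ N : ℕ, ∑ n ∈ Ioc 0 N, (1 + u) ^ (es s n) ≤
      (N : ℝ) * ∏ p ∈ s, (1 + u / ((p : ℝ) - 1 - u)) := by
  induction s using Finset.induction_on with
  | empty =>
    intro _ N
    simp [es]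
  | insert p s hps ih =>
    intro hs N
    have hp : p.Prime := hs p (Finset.mem_insert_self _ _)
    have hF := ih (fun q hq => hs q (Finset.mem_insert_of_mem hq))
    have hp2 : (2 : ℝ) ≤ p := by exact_mod_cast hp.two_le
    have hq : 0 < (p : ℝ) - 1 - u := by linarith
    obtain ⟨P, hP⟩ : ∃ P : ℝ, P = ∏ p ∈ s, (1 + u / ((p : ℝ) - 1 - u)) := ⟨_, rfl⟩
    rw [← hP] at hF
    have hP0 : 0 ≤ P := by
      rw [hP]
      refine Finset.prod_nonneg (fun q hq => ?_)
      have : (2 : ℝ) ≤ q := by exact_mod_cast (hs q (Finset.mem_insert_of_mem hq)).two_le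
      have h2 : 0 < (q : ℝ) - 1 - u := by linarith
      positivity
    have he : ∀ n, es (insert p s) n = n.factorization p + es s n := fun n => by
      unfold es
      rw [Finset.sum_insert hps]
    obtain ⟨Df, hDf⟩ : ∃ Df : ℕ → ℝ, Df = fun N => ∑ n ∈ Ioc 0 N,
      (1 + u) ^ (es s n) * ((1 + u) ^ (n.factorization p) - 1) := ⟨_, rfl⟩
    have hsplit : ∀ N : ℕ, ∑ n ∈ Ioc 0 N, (1 + u) ^ (es (insert p s) n) =
        ∑ n ∈ Ioc 0 N, (1 + u) ^ (es s n) + Df N := fun N => by
      rw [hDf]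
      simp only
      rw [← Finset.sum_add_distrib]
      refine Finset.sum_congr rfl (fun n _ => ?_)
      rw [he, pow_add]
      ring
    have hrec : ∀ N : ℕ, Df N = Df (N / p) + u * (∑ n ∈ Ioc 0 (N / p), (1 + u) ^ (es s n) + Df (N / p)) := by
      intro N
      rw [← hsplit, hDf]
      simp only
      rw [sum_mult p N hp.pos, Finset.mul_sum, ← Finset.sum_add_distrib]
      · refine Finset.sum_congr rfl (fun m hm => ?_)
        have hm0 : m ≠ 0 := by
          have := (Finset.mem_Ioc.1 hm).1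
          omega
        rw [es_mul s p m hp hps hm0, he, Nat.factorization_mul hp.ne_zero hm0, Finsupp.add_apply,
          hp.factorization, Finsupp.single_eq_same, pow_add, pow_add, pow_one]
        ring
      · intro n hn
        rw [Nat.factorization_eq_zero_of_not_dvd hn]
        simp
    have hD : ∀ N : ℕ, Df N ≤ u * P / ((p : ℝ) - 1 - u) * N := by
      intro N
      induction N using Nat.strong_induction_on with
      | _ N ihN =>
        rcases Nat.eq_zero_or_pos N with h0 | h0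
        · subst h0
          rw [hDf]
          simp
        · have h1 := ihN (N / p) (Nat.div_lt_self h0 hp.one_lt)
          have h2 := hF (N / p)
          have h3 : ((N / p : ℕ) : ℝ) ≤ (N : ℝ) / p := Nat.cast_div_le
          have hd0 : 0 ≤ u * P / ((p : ℝ) - 1 - u) := by positivity
          rw [hrec N]
          calc Df (N / p) + u * (∑ n ∈ Ioc 0 (N / p), (1 + u) ^ (es s n) + Df (N / p))
              ≤ u * P / ((p : ℝ) - 1 - u) * ((N / p : ℕ) : ℝ) +
                u * (((N / p : ℕ) : ℝ) * P + u * P / ((p : ℝ) - 1 - u) * ((N / p : ℕ) : ℝ)) := by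
                gcongr
            _ = (u * P / ((p : ℝ) - 1 - u) * (1 + u) + u * P) * ((N / p : ℕ) : ℝ) := by ring
            _ ≤ (u * P / ((p : ℝ) - 1 - u) * (1 + u) + u * P) * ((N : ℝ) / p) := by gcongr
            _ = u * P / ((p : ℝ) - 1 - u) * N := by
                field_simp
                ring
    rw [hsplit, Finset.prod_insert hps, ← hP]
    calc ∑ n ∈ Ioc 0 N, (1 + u) ^ (es s n) + Df N
        ≤ (N : ℝ) * P + u * P / ((p : ℝ) - 1 - u) * N := add_le_add (hF N) (hD N)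
      _ = _ := by ring

theorem es_eq (N n : ℕ) (hn : 0 < n) (hnN : n ≤ N) :
    es N.primesLE n = ArithmeticFunction.cardFactors n := by
  unfold es
  rw [ArithmeticFunction.cardFactors_eq_sum_factorization, Finsupp.sum]
  symm
  refine Finset.sum_subset (fun p hp => ?_) (fun p _ hp => ?_)
  · rw [Nat.support_factorization, Nat.mem_primeFactors] at hp
    rw [Nat.mem_primesLE]
    exact ⟨(Nat.le_of_dvd hn hp.2.1).trans hnN, hp.1⟩
  · exact Finsupp.notMem_support_iff.1 hp

theorem prod_le (u : ℝ) (hu : 0 ≤ u) (hu2 : u ≤ 1 / 2) : ∃ K : ℝ, ∀ N : ℕ, 2 ≤ N →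
    ∏ p ∈ N.primesLE, (1 + u / ((p : ℝ) - 1 - u)) ≤ Real.exp (u * Real.log (Real.log N) + K) := by
  have hsum : Summable (fun n : ℕ => 1 / (n : ℝ) ^ 2) := Real.summable_one_div_nat_pow.2 (by norm_num)
  refine ⟨u * 5 + 6 * u * ∑' n : ℕ, 1 / (n : ℝ) ^ 2, fun N hN => ?_⟩
  have h1 : ∏ p ∈ N.primesLE, (1 + u / ((p : ℝ) - 1 - u)) ≤
      ∏ p ∈ N.primesLE, Real.exp (u * (1 / p) + 6 * u * (1 / (p : ℝ) ^ 2)) := by
    refine Finset.prod_le_prod (fun p hp => ?_) (fun p hp => ?_)
    · have hp2 : (2 : ℝ) ≤ p := by exact_mod_cast (Nat.mem_primesLE.1 hp).2.two_le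
      have : 0 < (p : ℝ) - 1 - u := by linarith
      positivity
    · have hp2 : (2 : ℝ) ≤ p := by exact_mod_cast (Nat.mem_primesLE.1 hp).2.two_le
      have hq : 0 < (p : ℝ) - 1 - u := by linarith
      have hp0 : (0 : ℝ) < p := by linarith
      have h2 : u / ((p : ℝ) - 1 - u) ≤ u * (1 / p) + 6 * u * (1 / (p : ℝ) ^ 2) := by
        have h3 : u * (1 / p) + 6 * u * (1 / (p : ℝ) ^ 2) = u * (p + 6) / (p : ℝ) ^ 2 := by
          field_simp
        rw [h3, div_le_div_iff₀ hq (by positivity)]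
        have h4 : (p : ℝ) ^ 2 ≤ (p + 6) * ((p : ℝ) - 1 - u) := by nlinarith
        calc u * (p : ℝ) ^ 2 ≤ u * ((p + 6) * ((p : ℝ) - 1 - u)) := by gcongr
          _ = _ := by ring
      have h5 := Real.add_one_le_exp (u / ((p : ℝ) - 1 - u))
      calc 1 + u / ((p : ℝ) - 1 - u) ≤ Real.exp (u / ((p : ℝ) - 1 - u)) := by linarith
        _ ≤ _ := Real.exp_le_exp.2 h2
  refine h1.trans ?_
  rw [← Real.exp_sum]
  apply Real.exp_le_exp.2
  rw [Finset.sum_add_distrib, ← Finset.mul_sum, ← Finset.mul_sum]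
  have h6 := Pool.Agent.Helper28.PC.sum_inv_le hN
  have h7 : ∑ p ∈ N.primesLE, 1 / (p : ℝ) ^ 2 ≤ ∑' n : ℕ, 1 / (n : ℝ) ^ 2 :=
    hsum.sum_le_tsum _ (fun i _ => by positivity)
  calc u * ∑ p ∈ N.primesLE, 1 / (p : ℝ) + 6 * u * ∑ p ∈ N.primesLE, 1 / (p : ℝ) ^ 2
      ≤ u * (Real.log (Real.log N) + 5) + 6 * u * ∑' n : ℕ, 1 / (n : ℝ) ^ 2 := by gcongr
    _ = _ := by ring

/-- Module TU. -/
theorem hTU : StTU := by
  intro η hη
  obtain ⟨u, hu⟩ : ∃ u : ℝ, u = min η (1 / 2) := ⟨_, rfl⟩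
  have hu0 : 0 < u := by rw [hu]; exact lt_min hη (by norm_num)
  have huη : u ≤ η := by rw [hu]; exact min_le_left _ _
  have hu2 : u ≤ 1 / 2 := by rw [hu]; exact min_le_right _ _
  obtain ⟨K, hK⟩ := prod_le u hu0.le hu2
  have h1u : 0 < 1 + u := by linarith
  have hlog0 : 0 < Real.log (1 + u) := Real.log_pos (by linarith)
  have hc : 0 < (1 + η) * Real.log (1 + u) - u := by
    have h1 := Real.log_lt_sub_one_of_pos (x := (1 + u)⁻¹) (by positivity) (by
      intro h
      have := inv_eq_one.1 h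
      linarith)
    rw [Real.log_inv] at h1
    have h2 : u / (1 + u) < Real.log (1 + u) := by
      have : u / (1 + u) = 1 - (1 + u)⁻¹ := by field_simp; ring
      linarith
    rw [div_lt_iff₀ h1u] at h2
    nlinarith
  obtain ⟨c, hcdef⟩ : ∃ c : ℝ, c = (1 + η) * Real.log (1 + u) - u := ⟨_, rfl⟩
  rw [← hcdef] at hc
  have hlim : Tendsto (fun N : ℕ => Real.exp (K - c * Real.log (Real.log N))) atTop (𝓝 0) := by
    have hL : Tendsto (fun N : ℕ => Real.log (Real.log (N : ℝ))) atTop atTop :=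
      Real.tendsto_log_atTop.comp (Real.tendsto_log_atTop.comp tendsto_natCast_atTop_atTop)
    refine Real.tendsto_exp_atBot.comp ?_
    have h3 : Tendsto (fun N : ℕ => c * Real.log (Real.log (N : ℝ))) atTop atTop :=
      hL.const_mul_atTop hc
    exact tendsto_atBot_add_const_left _ K (tendsto_neg_atTop_atBot.comp h3)
  refine squeeze_zero' (Eventually.of_forall fun N => by unfold C; positivity) ?_ hlim
  filter_upwards [eventually_ge_atTop 3] with N hN
  have hN0 : (0 : ℝ) < N := by exact_mod_cast (by omega : 0 < N)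
  rw [div_le_iff₀ hN0]
  have hF := F_le u hu0.le hu2 N.primesLE (fun p hp => (Nat.mem_primesLE.1 hp).2) N
  have hF2 := hF.trans (mul_le_mul_of_nonneg_left (hK N (by omega)) hN0.le)
  classical
  have hC : C {n | (1 + η) * Real.log (Real.log N) < ArithmeticFunction.cardFactors n} N *
      Real.exp ((1 + η) * Real.log (Real.log N) * Real.log (1 + u)) ≤
      ∑ n ∈ Ioc 0 N, (1 + u) ^ (es N.primesLE n) := by
    have hCe : C {n | (1 + η) * Real.log (Real.log N) < ArithmeticFunction.cardFactors n} N =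
        (((Ioc 0 N).filter (fun n => (1 + η) * Real.log (Real.log N) <
          ArithmeticFunction.cardFactors n)).card : ℝ) := by
      unfold C
      norm_cast
    rw [hCe, ← nsmul_eq_mul, ← Finset.sum_const]
    refine (Finset.sum_le_sum (g := fun n => (1 + u) ^ (es N.primesLE n)) (fun n hn => ?_)).trans
      (Finset.sum_le_sum_of_subset_of_nonneg (Finset.filter_subset _ _) (fun n _ _ => by positivity))
    rw [Finset.mem_filter, Finset.mem_Ioc] at hn
    rw [es_eq N n hn.1.1 hn.1.2, ← Real.rpow_natCast, Real.rpow_def_of_pos h1u]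
    apply Real.exp_le_exp.2
    rw [mul_comm (Real.log (1 + u))]
    exact mul_le_mul_of_nonneg_right hn.2.le hlog0.le
  have hfin := hC.trans hF2
  have hE := Real.exp_pos ((1 + η) * Real.log (Real.log N) * Real.log (1 + u))
  rw [← le_div_iff₀ hE] at hfin
  refine hfin.trans (le_of_eq ?_)
  rw [mul_div_assoc, ← Real.exp_sub, mul_comm]
  congr 2
  rw [hcdef]
  ring

end Pool.Agent.Helper36.HD
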